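import Mathlib
import Pool.Agent.Lib.MP_4fb322_lc_h7.Defs

set_option autoImplicit false

/-!
# Interface: well-foundedness for 2-structures
-/

namespace Pool.Agent.Lib.MP_4fb322_lc_h91b

open Set Filter Pool.Agent.Lib.MP_4fb322_lc_h7

variable {Θ V W X : Type}

/-- every finite part of `T` embeds in `T'` -/
def Loc (T : V → V → Θ) (T' : W → W → Θ) : Prop :=
  ∀ Y : Set V, Y.Finite → ∃ h : V → W, PE T T' Y h

/-- there is no strictly decreasing sequence of ages of 2-structures inside the age of `T` -/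
def WF2 (T : V → V → Θ) : Prop :=
  ¬ ∃ (W : ℕ → Type) (S : (k : ℕ) → W k → W k → Θ),
    (∀ k, Loc (S k) T) ∧ ∀ k, Loc (S (k + 1)) (S k) ∧ ¬ Loc (S k) (S (k + 1))

end Pool.Agent.Lib.MP_4fb322_lc_h91b
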