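import Mathlib
import Pool.Agent.Lib.MP_4fb322_lc_h91b.Iface
import Pool.Agent.Lib.MP_4fb322_lc_h91s.SDefs
import Pool.Agent.Lib.MP_4fb322_lc_h21.W20
import Pool.Agent.Lib.MP_4fb322_lc_h21.W21

set_option autoImplicit false

/-!
# Reduction of ages of arity at most two to 2-structures
-/

namespace Pool.Agent.Lib.MP_4fb322_lc_h91b

open Set Filter
open Pool.Agent.Lib.MP_4fb322_lc_h70 (Str IsEmb Emb IsAge NoAntichain SubagesWF)
open Pool.Agent.Lib.MP_4fb322_lc_h91s (pr2 pr2_comp)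
open Pool.Agent.Lib.MP_4fb322_lc_h7 (PE Full Mini Shat UF)

variable {I : Type} {ar : I → ℕ} {V W : Type}

/-- the 2-type of the pair `(x, y)` -/
def ty (M : (i : I) → Set (Fin (ar i) → V)) (x y : V) : I → Prop × Prop :=
  fun i => ((pr2 x y : Fin (ar i) → V) ∈ M i, (pr2 y x : Fin (ar i) → V) ∈ M i)

/-- the reversal of a 2-type -/
def opp (θ : I → Prop × Prop) : I → Prop × Prop := fun i => ((θ i).2, (θ i).1)

theorem ty_symm (M : (i : I) → Set (Fin (ar i) → V)) (x y : V) : ty M y x = opp (ty M x y) := rfl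

theorem pr2_of_one {n : ℕ} (hn : n ≤ 1) (s : Fin n → V) (j : Fin n) : s = pr2 (s j) (s j) := by
  funext l
  have : l = j := Fin.ext (by omega)
  simp [pr2, this]

/-- a map preserving 2-types preserves all relations of arity one or two -/
theorem rel_of_ty (har : ∀ i, ar i ≤ 2) {M : (i : I) → Set (Fin (ar i) → V)}
    {N : (i : I) → Set (Fin (ar i) → W)} {f : V → W} {A : Set V}
    (h : ∀ x ∈ A, ∀ y ∈ A, ty N (f x) (f y) = ty M x y) {i : I} (hi : ar i ≠ 0)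
    (s : Fin (ar i) → V) (hs : ∀ j, s j ∈ A) : s ∈ M i ↔ f ∘ s ∈ N i := by
  have key : ∀ x ∈ A, ∀ y ∈ A, ((pr2 x y : Fin (ar i) → V) ∈ M i ↔
      (pr2 (f x) (f y) : Fin (ar i) → W) ∈ N i) := by
    intro x hx y hy
    have := congrArg Prod.fst (congrFun (h x hx y hy) i)
    exact (iff_of_eq this).symm
  rcases Nat.lt_or_ge (ar i) 2 with h2 | h2
  · have h0 : 0 < ar i := Nat.pos_of_ne_zero hi
    have e := pr2_of_one (by omega) s ⟨0, h0⟩
    rw [e, pr2_comp]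
    exact key _ (hs _) _ (hs _)
  · have e := Pool.Agent.Lib.MP_4fb322_lc_h91s.eq_pr2 (har i) s (j := ⟨0, by omega⟩)
      (k := ⟨1, by omega⟩) rfl rfl
    rw [e, pr2_comp]
    exact key _ (hs _) _ (hs _)

/-- all members of an age have the same relations of arity zero -/
theorem nullary {ℬ : Set (Str ar)} (hℬ : IsAge ℬ) {A B : Str ar} (hA : A ∈ ℬ) (hB : B ∈ ℬ)
    {i : I} (hi : ar i = 0) (s : Fin (ar i) → Fin A.1) (t : Fin (ar i) → Fin B.1) :
    s ∈ A.2 i ↔ t ∈ B.2 i := by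
  obtain ⟨C, -, ⟨f, hf⟩, ⟨g, hg⟩⟩ := hℬ.2.2 A hA B hB
  rw [hf.2 i s, hg.2 i t]
  have : f ∘ s = g ∘ t := by
    funext j
    exact absurd j.2 (by omega)
  rw [this]

theorem isEmb_of_ty (har : ∀ i, ar i ≤ 2) {ℬ : Set (Str ar)} (hℬ : IsAge ℬ) {A B : Str ar}
    (hA : A ∈ ℬ) (hB : B ∈ ℬ) {f : Fin A.1 → Fin B.1} (hf : Function.Injective f)
    (h : ∀ x y, ty B.2 (f x) (f y) = ty A.2 x y) : IsEmb A B f := by
  refine ⟨hf, fun i s => ?_⟩
  by_cases hi : ar i = 0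
  · exact nullary hℬ hA hB hi s (f ∘ s)
  · exact rel_of_ty har (A := Set.univ) (fun x _ y _ => h x y) hi s (fun _ => Set.mem_univ _)

theorem ty_of_isEmb {A B : Str ar} {f : Fin A.1 → Fin B.1} (h : IsEmb A B f) (x y : Fin A.1) :
    ty B.2 (f x) (f y) = ty A.2 x y := by
  funext i
  have h1 := h.2 i (pr2 x y)
  have h2 := h.2 i (pr2 y x)
  rw [pr2_comp] at h1 h2
  exact Prod.ext (propext h1.symm) (propext h2.symm)

/-- the structure induced along an enumeration -/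
def indS (M : (i : I) → Set (Fin (ar i) → V)) {k : ℕ} (g : Fin k → V) : Str ar :=
  ⟨k, fun i => {s | g ∘ s ∈ M i}⟩

theorem ty_indS (M : (i : I) → Set (Fin (ar i) → V)) {k : ℕ} (g : Fin k → V) (x y : Fin k) :
    ty (indS M g).2 x y = ty M (g x) (g y) := by
  funext i
  have h1 : (g ∘ (pr2 x y : Fin (ar i) → Fin k)) = pr2 (g x) (g y) := pr2_comp g x y
  have h2 : (g ∘ (pr2 y x : Fin (ar i) → Fin k)) = pr2 (g y) (g x) := pr2_comp g y x
  refine Prod.ext (propext ?_) (propext ?_)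
  · change (g ∘ (pr2 x y : Fin (ar i) → Fin k)) ∈ M i ↔ _
    rw [h1]
    rfl
  · change (g ∘ (pr2 y x : Fin (ar i) → Fin k)) ∈ M i ↔ _
    rw [h2]
    rfl

/-- `ℬ` is the age of `M` -/
def AgeIs (M : (i : I) → Set (Fin (ar i) → V)) (ℬ : Set (Str ar)) : Prop :=
  ∀ A : Str ar, A ∈ ℬ ↔ ∃ f : Fin A.1 → V, Function.Injective f ∧
    ∀ (i : I) (t : Fin (ar i) → Fin A.1), t ∈ A.2 i ↔ f ∘ t ∈ M i

theorem AgeIs.indS_mem {M : (i : I) → Set (Fin (ar i) → V)} {ℬ : Set (Str ar)}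
    (h : AgeIs M ℬ) {k : ℕ} (g : Fin k → V) (hg : Function.Injective g) : indS M g ∈ ℬ :=
  (h _).2 ⟨g, hg, fun _ _ => Iff.rfl⟩

/-- enumeration of a finite set -/
theorem exists_enum {Y : Set W} (hY : Y.Finite) :
    ∃ (k : ℕ) (e : Fin k → W) (r : W → Option (Fin k)), k = Y.ncard ∧ Function.Injective e ∧
      (∀ a, e a ∈ Y) ∧ ∀ y ∈ Y, ∃ a, e a = y ∧ r y = some a := by
  classical
  have := hY.to_subtype
  have := Fintype.ofFinite Y
  let e := Fintype.equivFin Y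
  have hk : Fintype.card Y = Y.ncard := by
    rw [← Nat.card_eq_fintype_card, Nat.card_coe_set_eq]
  refine ⟨Fintype.card Y, fun a => (e.symm a : W), fun y => if h : y ∈ Y then some (e ⟨y, h⟩)
    else none, hk, ?_, fun a => (e.symm a).2, ?_⟩
  · intro a b hab
    exact e.symm.injective (Subtype.ext hab)
  · intro y hy
    exact ⟨e ⟨y, hy⟩, by simp, by simp [hy]⟩

section Age

variable {M : (i : I) → Set (Fin (ar i) → V)} {ℬ : Set (Str ar)}

/-- a finite part of a structure which is locally in `M` gives a member of `ℬ` -/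
theorem exists_member (hM : AgeIs M ℬ) {S : W → W → (I → Prop × Prop)} {Y : Set W}
    (hY : Y.Finite) {h : W → V} (hh : PE S (ty M) Y h) :
    ∃ C ∈ ℬ, C.1 = Y.ncard ∧ ∃ e : Fin C.1 → W, Function.Injective e ∧ (∀ a, e a ∈ Y) ∧
      (∀ y ∈ Y, ∃ a, e a = y) ∧ ∀ a b, S (e a) (e b) = ty C.2 a b := by
  obtain ⟨k, e, r, hk, he, heY, hr⟩ := exists_enum hY
  refine ⟨indS M (fun a => h (e a)), ?_, hk, e, he, heY, fun y hy => ?_, ?_⟩
  · exact hM.indS_mem _ (fun a b hab => he (hh.1 (heY a) (heY b) hab))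
  · obtain ⟨a, ha, -⟩ := hr y hy
    exact ⟨a, ha⟩
  · intro a b
    rw [ty_indS, hh.2 _ (heY a) _ (heY b)]

/-- maps into a finite part factor through the corresponding member -/
theorem emb_member (har : ∀ i, ar i ≤ 2) (hℬ : IsAge ℬ) {S : W → W → (I → Prop × Prop)}
    {Y : Set W} {C : Str ar} (hC : C ∈ ℬ) {e : Fin C.1 → W}
    (heY : ∀ y ∈ Y, ∃ a, e a = y) (hS : ∀ a b, S (e a) (e b) = ty C.2 a b)
    {A : Str ar} (hA : A ∈ ℬ) {g : Fin A.1 → W} (hg : Function.Injective g)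
    (hgY : ∀ x, g x ∈ Y) (hgS : ∀ x y, S (g x) (g y) = ty A.2 x y) : Emb A C := by
  choose r hr using fun x => heY (g x) (hgY x)
  refine ⟨r, isEmb_of_ty har hℬ hA hC ?_ ?_⟩
  · intro x y hxy
    exact hg (by rw [← hr x, ← hr y, hxy])
  · intro x y
    rw [← hS, hr, hr, hgS]

theorem emb_of_pe (har : ∀ i, ar i ≤ 2) (hℬ : IsAge ℬ) {S : W → W → (I → Prop × Prop)}
    {A B : Str ar} (hA : A ∈ ℬ) (hB : B ∈ ℬ) {g : Fin A.1 → W} {g' : Fin B.1 → W}
    (hgS : ∀ x y, S (g x) (g y) = ty A.2 x y)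
    (hgS' : ∀ x y, S (g' x) (g' y) = ty B.2 x y) {f : Fin A.1 → Fin B.1}
    (hf : Function.Injective f) (hfg : ∀ x, g' (f x) = g x) : Emb A B :=
  ⟨f, isEmb_of_ty har hℬ hA hB hf fun x y => by rw [← hgS', hfg, hfg, hgS]⟩

theorem noChain_of_wf (har : ∀ i, ar i ≤ 2) (hM : AgeIs M ℬ) (hℬ : IsAge ℬ)
    (hwf : SubagesWF ℬ) : WF2 (ty M) := by
  rintro ⟨W, S, hloc, hS⟩
  let D : ℕ → Set (Str ar) := fun k => {A | A ∈ ℬ ∧ ∃ g : Fin A.1 → W k,
    Function.Injective g ∧ ∀ x y, S k (g x) (g y) = ty A.2 x y}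
  have hDsub : ∀ k, D (k + 1) ⊆ D k := by
    rintro k A ⟨hA, g, hg, hgS⟩
    obtain ⟨h, hh⟩ := (hS k).1 (Set.range g) (Set.finite_range g)
    refine ⟨hA, fun x => h (g x), ?_, ?_⟩
    · intro x y hxy
      exact hg (hh.1 (Set.mem_range_self _) (Set.mem_range_self _) hxy)
    · intro x y
      rw [hh.2 _ (Set.mem_range_self _) _ (Set.mem_range_self _), hgS]
  refine hwf ⟨D, fun k => ⟨fun A hA => hA.1, ?_, ?_, ?_⟩, fun k => ?_⟩
  · refine ⟨indS M (k := 0) (fun a => a.elim0), hM.indS_mem _ (fun a => a.elim0),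
      fun a => Fin.elim0 a, fun a => Fin.elim0 a, fun a => Fin.elim0 a⟩
  · rintro A B ⟨hB, g, hg, hgS⟩ hAB
    obtain ⟨f, hf⟩ := hAB
    refine ⟨hℬ.2.1 A B hB ⟨f, hf⟩, fun x => g (f x), fun x y hxy => hf.1 (hg hxy), ?_⟩
    intro x y
    rw [hgS, ty_of_isEmb hf]
  · rintro A ⟨hA, g, hg, hgS⟩ B ⟨hB, g', hg', hgS'⟩
    have hY : (Set.range g ∪ Set.range g').Finite := (Set.finite_range g).union
      (Set.finite_range g')
    obtain ⟨h, hh⟩ := hloc k _ hY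
    obtain ⟨C, hC, -, e, he, heY, hsur, hSe⟩ := exists_member hM hY hh
    exact ⟨C, ⟨hC, e, he, hSe⟩,
      emb_member har hℬ hC hsur hSe hA hg (fun x => Or.inl (Set.mem_range_self x)) hgS,
      emb_member har hℬ hC hsur hSe hB hg' (fun x => Or.inr (Set.mem_range_self x)) hgS'⟩
  · refine (Set.ssubset_iff_subset_ne).2 ⟨hDsub k, fun hEq => (hS k).2 ?_⟩
    intro Y hY
    classical
    by_cases hW : Nonempty (W k)
    · obtain ⟨w₀⟩ := hW
      have hY' : (insert w₀ Y).Finite := hY.insert w₀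
      obtain ⟨h, hh⟩ := hloc k _ hY'
      obtain ⟨C, hC, -, e, he, heY, hsur, hSe⟩ := exists_member hM hY' hh
      have hCD : C ∈ D k := ⟨hC, e, he, hSe⟩
      rw [← hEq] at hCD
      obtain ⟨-, g, hg, hgS⟩ := hCD
      obtain ⟨a₀, ha₀⟩ := hsur w₀ (Set.mem_insert _ _)
      let r : W k → Fin C.1 := fun y => if hy : ∃ a, e a = y then hy.choose else a₀
      have hr : ∀ y ∈ Y, e (r y) = y := by
        intro y hy
        have hy' : ∃ a, e a = y := hsur y (Set.mem_insert_of_mem _ hy)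
        simp only [r, dif_pos hy']
        exact hy'.choose_spec
      refine ⟨fun y => g (r y), ?_, ?_⟩
      · intro x hx y hy hxy
        rw [← hr x hx, ← hr y hy, hg hxy]
      · intro x hx y hy
        rw [hgS, ← hSe, hr x hx, hr y hy]
    · exact ⟨fun w => absurd ⟨w⟩ hW, fun x _ => absurd ⟨x⟩ hW, fun x _ => absurd ⟨x⟩ hW⟩

end Age

end Pool.Agent.Lib.MP_4fb322_lc_h91b
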