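import Mathlib
import Pool.Agent.Lib.MP_4fb322_lc_h91b.Red

set_option autoImplicit false

/-!
# Reduction of ages of arity at most two to 2-structures: minimality and assembly
-/

namespace Pool.Agent.Lib.MP_4fb322_lc_h91b

open Set Filter
open Pool.Agent.Lib.MP_4fb322_lc_h70 (Str IsEmb Emb IsAge NoAntichain SubagesWF)
open Pool.Agent.Lib.MP_4fb322_lc_h91s (pr2 pr2_comp)
open Pool.Agent.Lib.MP_4fb322_lc_h7 (PE Full Mini Shat UF)

variable {I : Type} {ar : I → ℕ} {V W : Type}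

theorem finite_str [Finite I] (K : ℕ) : {C : Str ar | C.1 ≤ K}.Finite := by
  classical
  have h : {C : Str ar | C.1 ≤ K} ⊆ ⋃ n ∈ Set.Iic K, Set.range (fun r => (⟨n, r⟩ : Str ar)) := by
    rintro ⟨n, r⟩ hn
    exact Set.mem_biUnion (Set.mem_Iic.2 hn) ⟨r, rfl⟩
  refine Set.Finite.subset (Set.Finite.biUnion (Set.finite_Iic K) fun n _ => ?_) h
  exact Set.finite_range _

/-- minimality of the age of `M` in the form in which it is used for 2-structures -/
theorem mini_of_min [Finite I] (har : ∀ i, ar i ≤ 2) {M : (i : I) → Set (Fin (ar i) → V)}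
    {ℬ : Set (Str ar)} (hM : AgeIs M ℬ) (hℬ : IsAge ℬ)
    (hmin : ∀ 𝒞 : Set (Str ar), 𝒞 ⊆ ℬ → IsAge 𝒞 → ¬ NoAntichain 𝒞 → 𝒞 = ℬ)
    {a : ℕ → Finset V}
    (anti : ∀ i j, i ≠ j → ¬ ∃ f : V → V, PE (ty M) (ty M) (a i : Set V) f ∧
      ∀ x ∈ a i, f x ∈ a j) : Mini (ty M) a := by
  classical
  intro ι W U T' N hloc hfull
  let 𝒞 : Set (Str ar) := {A | A ∈ ℬ ∧ ∀ᶠ m in (U : Filter ι), ∃ g : Fin A.1 → W,
    Function.Injective g ∧ (∀ x, g x ∈ N m) ∧ ∀ x y, T' (g x) (g y) = ty A.2 x y}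
  -- the members of the antichain
  have hmem : ∀ n, ∃ C ∈ ℬ, ∃ e : Fin C.1 → V, Function.Injective e ∧ (∀ b, e b ∈ a n) ∧
      (∀ y ∈ a n, ∃ b, e b = y) ∧ ∀ b c, ty M (e b) (e c) = ty C.2 b c := by
    intro n
    obtain ⟨C, hC, -, e, he, heY, hsur, hSe⟩ := exists_member hM (S := ty M)
      (Y := (a n : Set V)) (a n).finite_toSet (h := fun x => x) (PE.id _ _)
    exact ⟨C, hC, e, he, fun b => Finset.mem_coe.1 (heY b),
      fun y hy => hsur y (Finset.mem_coe.2 hy), hSe⟩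
  choose c hcB e he heY hsur hSe using hmem
  have hgood : ∀ᶠ n in (UF : Filter ℕ), c n ∈ 𝒞 := by
    filter_upwards [hfull] with n hn
    refine ⟨hcB n, ?_⟩
    filter_upwards [hn] with m hm
    obtain ⟨f, hf, hfN⟩ := hm
    refine ⟨fun b => f (e n b), ?_, fun b => hfN _ (heY n b), ?_⟩
    · intro b b' hbb
      exact he n (hf.1 (Finset.mem_coe.2 (heY n b)) (Finset.mem_coe.2 (heY n b')) hbb)
    · intro b b'
      rw [hf.2 _ (Finset.mem_coe.2 (heY n b)) _ (Finset.mem_coe.2 (heY n b')), hSe]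
  have hage : IsAge 𝒞 := by
    refine ⟨?_, ?_, ?_⟩
    · obtain ⟨n, hn⟩ := hgood.exists
      exact ⟨c n, hn⟩
    · rintro A B ⟨hB, hBU⟩ hAB
      refine ⟨hℬ.2.1 A B hB hAB, ?_⟩
      obtain ⟨f, hf⟩ := hAB
      filter_upwards [hBU] with m hm
      obtain ⟨g, hg, hgN, hgS⟩ := hm
      refine ⟨fun x => g (f x), fun x y hxy => hf.1 (hg hxy), fun x => hgN _, ?_⟩
      intro x y
      rw [hgS, ty_of_isEmb hf]
    · rintro A ⟨hA, hAU⟩ B ⟨hB, hBU⟩
      have key : ∀ᶠ m in (U : Filter ι), ∃ C ∈ {C : Str ar | C.1 ≤ A.1 + B.1}, C ∈ ℬ ∧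
          Emb A C ∧ Emb B C ∧ ∃ g : Fin C.1 → W, Function.Injective g ∧ (∀ x, g x ∈ N m) ∧
            ∀ x y, T' (g x) (g y) = ty C.2 x y := by
        filter_upwards [hAU, hBU] with m hAm hBm
        obtain ⟨g, hg, hgN, hgS⟩ := hAm
        obtain ⟨g', hg', hgN', hgS'⟩ := hBm
        have hY : (Set.range g ∪ Set.range g').Finite := (Set.finite_range g).union
          (Set.finite_range g')
        have hYN : Set.range g ∪ Set.range g' ⊆ N m := by
          rintro x (⟨y, rfl⟩ | ⟨y, rfl⟩)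
          · exact hgN y
          · exact hgN' y
        obtain ⟨h, hh⟩ := hloc m _ hY hYN
        obtain ⟨C, hC, hcard, e', he', heY', hsur', hSe'⟩ := exists_member hM hY hh
        refine ⟨C, ?_, hC, emb_member har hℬ hC hsur' hSe' hA hg
          (fun x => Or.inl (Set.mem_range_self x)) hgS, emb_member har hℬ hC hsur' hSe' hB hg'
          (fun x => Or.inr (Set.mem_range_self x)) hgS', e', he', fun x => hYN (heY' x), hSe'⟩
        rw [hcard]
        calc (Set.range g ∪ Set.range g').ncard ≤ (Set.range g).ncard + (Set.range g').ncard :=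
              Set.ncard_union_le _ _
          _ ≤ A.1 + B.1 := by
              refine add_le_add ?_ ?_
              · rw [← Set.image_univ]
                refine (Set.ncard_image_le Set.finite_univ).trans ?_
                simp
              · rw [← Set.image_univ]
                refine (Set.ncard_image_le Set.finite_univ).trans ?_
                simp
      obtain ⟨C, -, hC⟩ := (Ultrafilter.eventually_exists_mem_iff (finite_str _)).1 key
      obtain ⟨m, hm⟩ := hC.exists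
      exact ⟨C, ⟨hm.1, hC.mono fun m h => h.2.2.2⟩, hm.2.1, hm.2.2.1⟩
  have hna : ¬ NoAntichain 𝒞 := by
    intro hno
    apply hno
    have hinf : {n | c n ∈ 𝒞}.Infinite := by
      intro hfin
      have := Filter.hyperfilter_le_cofinite (α := ℕ)
      have h2 : {n | c n ∈ 𝒞}ᶜ ∈ (UF : Filter ℕ) := this hfin.compl_mem_cofinite
      have h3 := Filter.inter_mem hgood h2
      rw [show {x | c x ∈ 𝒞} ∩ {n | c n ∈ 𝒞}ᶜ = ∅ from Set.inter_compl_self _] at h3
      exact Filter.empty_notMem _ h3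
    refine ⟨fun k => c (Nat.nth (fun n => c n ∈ 𝒞) k), fun k => Nat.nth_mem_of_infinite hinf k,
      fun m k hmk hemb => ?_⟩
    set p := Nat.nth (fun n => c n ∈ 𝒞) m
    set q := Nat.nth (fun n => c n ∈ 𝒞) k
    have hpq : p ≠ q := fun h => hmk (Nat.nth_injective hinf h)
    obtain ⟨f, hf⟩ := hemb
    refine anti p q hpq ?_
    by_cases hp : (a p).Nonempty
    · obtain ⟨y₀, hy₀⟩ := hp
      obtain ⟨b₀, hb₀⟩ := hsur p y₀ hy₀
      let r : V → Fin (c p).1 := fun y => if hy : ∃ b, e p b = y then hy.choose else b₀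
      have hr : ∀ y ∈ a p, e p (r y) = y := by
        intro y hy
        have hy' : ∃ b, e p b = y := hsur p y hy
        simp only [r, dif_pos hy']
        exact hy'.choose_spec
      refine ⟨fun y => e q (f (r y)), ⟨?_, ?_⟩, fun y _ => heY q _⟩
      · intro x hx y hy hxy
        rw [← hr x hx, ← hr y hy, hf.1 (he q hxy)]
      · intro x hx y hy
        rw [hSe, ty_of_isEmb hf, ← hSe, hr x hx, hr y hy]
    · rw [Finset.not_nonempty_iff_eq_empty] at hp
      refine ⟨fun y => y, ?_, ?_⟩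
      · rw [hp]
        exact ⟨by simp, by simp⟩
      · rw [hp]
        simp
  have hEq := hmin 𝒞 (fun A hA => hA.1) hage hna
  intro Y hY
  obtain ⟨C, hC, -, e', he', heY', hsur', hSe'⟩ := exists_member hM (S := ty M) hY
    (h := fun x => x) (PE.id _ _)
  have hC2 : C ∈ 𝒞 := by rw [hEq]; exact hC
  obtain ⟨n, hn⟩ := hfull.exists
  filter_upwards [hC2.2, hn] with m hm hm2
  obtain ⟨g, hg, hgN, hgS⟩ := hm
  obtain ⟨f₀, -, -⟩ := hm2
  let r : V → W := fun y => if hy : ∃ b, e' b = y then g hy.choose else f₀ y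
  have hr : ∀ y ∈ Y, ∃ b, e' b = y ∧ r y = g b := by
    intro y hy
    have hy' : ∃ b, e' b = y := hsur' y hy
    exact ⟨hy'.choose, hy'.choose_spec, by simp only [r, dif_pos hy']⟩
  refine ⟨r, ⟨?_, ?_⟩, ?_⟩
  · intro x hx y hy hxy
    obtain ⟨b, hb, hb'⟩ := hr x hx
    obtain ⟨b2, hb2, hb2'⟩ := hr y hy
    rw [hb', hb2'] at hxy
    rw [← hb, ← hb2, hg hxy]
  · intro x hx y hy
    obtain ⟨b, hb, hb'⟩ := hr x hx
    obtain ⟨b2, hb2, hb2'⟩ := hr y hy
    rw [hb', hb2', hgS, ← hSe', hb, hb2]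
  · intro x hx
    obtain ⟨b, hb, hb'⟩ := hr x hx
    rw [hb']
    exact hgN b

/-- the statement proved in the first two parts -/
def BinaryFalse : Prop :=
  ∀ (Θ V : Type) [Finite Θ] [Nonempty Θ] [Countable V] (op : Θ → Θ) (T : V → V → Θ)
    (a : ℕ → Finset V), (∀ x y, T y x = op (T x y)) →
    (∀ i j, i ≠ j → ¬ ∃ f : V → V, PE T T (a i : Set V) f ∧ ∀ x ∈ a i, f x ∈ a j) →
    Mini T a → (∀ θ, ∃ n, ¬ Shat T θ n) → False

/-- the statement on the independence property -/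
def NipOfWf : Prop :=
  ∀ (Θ V : Type) [Finite Θ] (op : Θ → Θ) (T : V → V → Θ),
    (∀ x y, T y x = op (T x y)) → WF2 T → ∀ θ, ∃ n, ¬ Shat T θ n

theorem SubagesWF.mono {𝒜 ℬ : Set (Str ar)} (h : SubagesWF 𝒜) (hs : ℬ ⊆ 𝒜) : SubagesWF ℬ := by
  rintro ⟨D, hD, hD2⟩
  exact h ⟨D, fun k => ⟨(hD k).1.trans hs, (hD k).2⟩, hD2⟩

/-- the finite binary case, from the two main statements -/
theorem noAntichain_of_binary' (h1 : BinaryFalse) (h2 : NipOfWf) [Finite I]
    (har : ∀ i, ar i ≤ 2) {𝒜 : Set (Str ar)} (h𝒜 : IsAge 𝒜) (hwf : SubagesWF 𝒜) :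
    NoAntichain 𝒜 := by
  classical
  by_contra hna
  obtain ⟨ℬ, hℬ𝒜, hℬ, hℬna, hℬmin⟩ :=
    Pool.Agent.Lib.MP_4fb322_lc_h21.exists_min_age h𝒜 hwf hna
  obtain ⟨M₀, X₀, hM₀⟩ := Pool.Agent.Lib.MP_4fb322_lc_h21.exists_model hℬ
  let V : Type := X₀
  let M : (i : I) → Set (Fin (ar i) → V) := fun i => {s | (fun j => (s j : ℕ)) ∈ M₀ i}
  have hM : AgeIs M ℬ := by
    intro A
    rw [← hM₀]
    constructor
    · rintro ⟨f, hf, hfX, hr⟩
      exact ⟨fun x => ⟨f x, hfX x⟩, fun x y h => hf (congrArg Subtype.val h),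
        fun i s => hr i s⟩
    · rintro ⟨f, hf, hr⟩
      exact ⟨fun x => (f x : ℕ), fun x y h => hf (Subtype.ext h), fun x => (f x).2,
        fun i s => hr i s⟩
  have hneg : ∃ s : ℕ → Str ar, (∀ k, s k ∈ ℬ) ∧ ∀ m k, m ≠ k → ¬ Emb (s m) (s k) := by
    by_contra hh
    exact hℬna hh
  obtain ⟨s, hs, hanti⟩ := hneg
  choose φ hφ hφr using fun k => (hM (s k)).1 (hs k)
  have hty : ∀ k x y, ty M (φ k x) (φ k y) = ty (s k).2 x y := by
    intro k x y
    funext i
    have e1 := hφr k i (pr2 x y)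
    have e2 := hφr k i (pr2 y x)
    rw [pr2_comp] at e1 e2
    exact Prod.ext (propext e1.symm) (propext e2.symm)
  let a : ℕ → Finset V := fun k => Finset.univ.image (φ k)
  have anti : ∀ i j, i ≠ j → ¬ ∃ f : V → V, PE (ty M) (ty M) (a i : Set V) f ∧
      ∀ x ∈ a i, f x ∈ a j := by
    rintro i j hij ⟨f, hf, hfa⟩
    have hmemi : ∀ x, φ i x ∈ (a i : Set V) := fun x => by simp [a]
    have h3 : ∀ x, ∃ y, φ j y = f (φ i x) := by
      intro x
      have := hfa (φ i x) (Finset.mem_coe.1 (hmemi x))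
      simpa [a] using this
    choose g hg using h3
    refine hanti i j hij ⟨g, isEmb_of_ty har hℬ (hs i) (hs j) ?_ ?_⟩
    · intro x y hxy
      apply hφ i
      apply hf.1 (hmemi x) (hmemi y)
      rw [← hg x, ← hg y, hxy]
    · intro x y
      rw [← hty, hg, hg, hf.2 _ (hmemi x) _ (hmemi y), hty]
  have : Countable V := by
    change Countable X₀
    infer_instance
  have : Finite (I → Prop × Prop) := inferInstance
  exact h1 (I → Prop × Prop) V opp (ty M) a (fun x y => rfl) anti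
    (mini_of_min har hM hℬ hℬmin anti)
    (h2 (I → Prop × Prop) V opp (ty M) (fun x y => rfl)
      (noChain_of_wf har hM hℬ (hwf.mono hℬ𝒜)))

end Pool.Agent.Lib.MP_4fb322_lc_h91b
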