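import Mathlib
import Pool.Agent.Lib.MP_4fb322_lc_h91b.Red2

set_option autoImplicit false

/-!
# Infinite signatures: finitely many 2-types
-/

namespace Pool.Agent.Lib.MP_4fb322_lc_h91b

open Set Filter
open Pool.Agent.Lib.MP_4fb322_lc_h70
  (Str IsEmb Emb IsAge NoAntichain SubagesWF ageOn ageOn_isAge ageOn_mono)
open Pool.Agent.Lib.MP_4fb322_lc_h91s (pr2 pr2_comp)
open Pool.Agent.Lib.MP_4fb322_lc_h7 (Full Mini Shat UF)

variable {I : Type} {ar : I → ℕ} {V W : Type}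

private theorem extend_inj {a b : ℕ} {f : Fin a → Fin b} (hf : Function.Injective f)
    {φ : Fin a → ℕ} (hφ : Function.Injective φ) :
    ∃ ψ : Fin b → ℕ, Function.Injective ψ ∧ ∀ x, ψ (f x) = φ x := by
  classical
  set B : ℕ := Finset.univ.sup φ + 1 with hB
  have hlt : ∀ x, φ x < B := fun x =>
    Nat.lt_succ_of_le (Finset.le_sup (f := φ) (Finset.mem_univ x))
  set ψ : Fin b → ℕ := fun y => if h : ∃ x, f x = y then φ h.choose else B + y with hψ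
  have h1 : ∀ x, ψ (f x) = φ x := by
    intro x
    have h : ∃ x', f x' = f x := ⟨x, rfl⟩
    have h2 : h.choose = x := hf h.choose_spec
    simp only [hψ]
    rw [dif_pos h, h2]
  have h3 : ∀ y, (¬ ∃ x, f x = y) → ψ y = B + y := by
    intro y h
    simp only [hψ]
    rw [dif_neg h]
  refine ⟨ψ, ?_, h1⟩
  intro y y' hyy
  by_cases hy : ∃ x, f x = y <;> by_cases hy' : ∃ x, f x = y'
  · obtain ⟨x, rfl⟩ := hy
    obtain ⟨x', rfl⟩ := hy'
    rw [h1, h1] at hyy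
    rw [hφ hyy]
  · obtain ⟨x, rfl⟩ := hy
    rw [h1, h3 _ hy'] at hyy
    have := hlt x
    omega
  · obtain ⟨x', rfl⟩ := hy'
    rw [h1, h3 _ hy] at hyy
    have := hlt x'
    omega
  · rw [h3 _ hy, h3 _ hy'] at hyy
    exact Fin.ext (by omega)

private theorem chain_maps (H : ℕ → Str ar) (f : (n : ℕ) → Fin (H n).1 → Fin (H (n + 1)).1)
    (hf : ∀ n, IsEmb (H n) (H (n + 1)) (f n)) :
    ∃ φ : (n : ℕ) → Fin (H n).1 → ℕ, (∀ n, Function.Injective (φ n)) ∧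
      ∀ n x, φ (n + 1) (f n x) = φ n x := by
  have step : ∀ (n : ℕ) (p : {φ : Fin (H n).1 → ℕ // Function.Injective φ}),
      ∃ q : {φ : Fin (H (n + 1)).1 → ℕ // Function.Injective φ}, ∀ x, q.1 (f n x) = p.1 x := by
    intro n p
    obtain ⟨ψ, h1, h2⟩ := extend_inj (hf n).1 p.2
    exact ⟨⟨ψ, h1⟩, h2⟩
  choose g hg using step
  let Φ : (n : ℕ) → {φ : Fin (H n).1 → ℕ // Function.Injective φ} := fun n =>
    Nat.rec (motive := fun n => {φ : Fin (H n).1 → ℕ // Function.Injective φ})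
      ⟨fun x => x.1, Fin.val_injective⟩ (fun n p => g n p) n
  refine ⟨fun n => (Φ n).1, fun n => (Φ n).2, fun n x => ?_⟩
  exact hg n (Φ n) x

private theorem chain_emb {H : ℕ → Str ar} {f : (n : ℕ) → Fin (H n).1 → Fin (H (n + 1)).1}
    (hf : ∀ n, IsEmb (H n) (H (n + 1)) (f n)) {φ : (n : ℕ) → Fin (H n).1 → ℕ}
    (hφ : ∀ n x, φ (n + 1) (f n x) = φ n x) (m k : ℕ) :
    ∃ F : Fin (H m).1 → Fin (H (m + k)).1, IsEmb (H m) (H (m + k)) F ∧
      ∀ x, φ (m + k) (F x) = φ m x := by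
  induction k with
  | zero => exact ⟨id, Pool.Agent.Lib.MP_4fb322_lc_h70.IsEmb.refl _, fun _ => rfl⟩
  | succ k ih =>
    obtain ⟨F, h1, h2⟩ := ih
    exact ⟨f (m + k) ∘ F, Pool.Agent.Lib.MP_4fb322_lc_h70.IsEmb.trans h1 (hf (m + k)),
      fun x => (hφ (m + k) (F x)).trans (h2 x)⟩

private theorem chain_emb' {H : ℕ → Str ar} {f : (n : ℕ) → Fin (H n).1 → Fin (H (n + 1)).1}
    (hf : ∀ n, IsEmb (H n) (H (n + 1)) (f n)) {φ : (n : ℕ) → Fin (H n).1 → ℕ}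
    (hφ : ∀ n x, φ (n + 1) (f n x) = φ n x) {m n : ℕ} (hmn : m ≤ n) :
    ∃ F : Fin (H m).1 → Fin (H n).1, IsEmb (H m) (H n) F ∧ ∀ x, φ n (F x) = φ m x := by
  obtain ⟨k, rfl⟩ := Nat.exists_eq_add_of_le hmn
  exact chain_emb hf hφ m k

/-- a sequence of members of an age lives in one structure on `ℕ` -/
theorem exists_model_seq {𝒜 : Set (Str ar)} (h𝒜 : IsAge 𝒜) (G : ℕ → Str ar)
    (hG : ∀ n, G n ∈ 𝒜) :
    ∃ (M : (i : I) → Set (Fin (ar i) → ℕ)) (X : Set ℕ) (ψ : (n : ℕ) → Fin (G n).1 → ℕ),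
      ageOn M X ⊆ 𝒜 ∧ (∀ n x, ψ n x ∈ X) ∧ (∀ n, Function.Injective (ψ n)) ∧
      ∀ n (i : I) (t : Fin (ar i) → Fin (G n).1), t ∈ (G n).2 i ↔ ψ n ∘ t ∈ M i := by
  classical
  have step : ∀ (n : ℕ) (A : 𝒜), ∃ C : 𝒜, Emb A.1 C.1 ∧ Emb (G n) C.1 := by
    intro n A
    obtain ⟨C, hC, h1, h2⟩ := h𝒜.2.2 A.1 A.2 (G n) (hG n)
    exact ⟨⟨C, hC⟩, h1, h2⟩
  choose g hg1 hg2 using step
  let K : ℕ → 𝒜 := fun n => Nat.rec (motive := fun _ => 𝒜) ⟨G 0, hG 0⟩ (fun n A => g n A) n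
  have h1 : ∀ n, Emb (K n).1 (K (n + 1)).1 := fun n => hg1 n (K n)
  have h2 : ∀ n, Emb (G n) (K (n + 1)).1 := fun n => hg2 n (K n)
  choose f hf using h1
  choose γ hγ using h2
  obtain ⟨φ, hφ, hφf⟩ := chain_maps (fun n => (K n).1) f hf
  set M : (i : I) → Set (Fin (ar i) → ℕ) := fun i =>
    {s | ∃ (n : ℕ) (t : Fin (ar i) → Fin (K n).1.1), t ∈ (K n).1.2 i ∧ φ n ∘ t = s} with hM
  have key : ∀ (n : ℕ) (i : I) (t : Fin (ar i) → Fin (K n).1.1),
      t ∈ (K n).1.2 i ↔ φ n ∘ t ∈ M i := by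
    intro n i t
    constructor
    · intro h
      exact ⟨n, t, h, rfl⟩
    · rintro ⟨m, t', h1, h2⟩
      obtain ⟨F, hF1, hF2⟩ := chain_emb' (H := fun n => (K n).1) hf hφf (le_max_left n m)
      obtain ⟨F', hF1', hF2'⟩ := chain_emb' (H := fun n => (K n).1) hf hφf (le_max_right n m)
      rw [hF1.2 i t]
      rw [hF1'.2 i t'] at h1
      have h3 : F ∘ t = F' ∘ t' := by
        funext j
        apply hφ (max n m)
        have h4 := congrFun h2 j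
        simp only [Function.comp_apply] at h4 ⊢
        rw [hF2, hF2', h4]
      rwa [h3]
  refine ⟨M, {x | ∃ (n : ℕ) (y : Fin (K n).1.1), φ n y = x}, fun n => φ (n + 1) ∘ γ n, ?_,
    fun n x => ⟨n + 1, γ n x, rfl⟩, fun n => (hφ _).comp (hγ n).1, fun n i t => ?_⟩
  · rintro A ⟨e, he, heX, her⟩
    choose n y hy using heX
    set N : ℕ := Finset.univ.sup n with hN
    have hle : ∀ x, n x ≤ N := fun x => Finset.le_sup (f := n) (Finset.mem_univ x)
    have h1 : ∀ x, ∃ z : Fin (K N).1.1, φ N z = e x := by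
      intro x
      obtain ⟨F, -, hF2⟩ := chain_emb' (H := fun n => (K n).1) hf hφf (hle x)
      exact ⟨F (y x), by rw [hF2, hy]⟩
    choose g hg using h1
    have h2 : Emb A (K N).1 := by
      refine ⟨g, ?_, ?_⟩
      · intro x x' hxx
        apply he
        rw [← hg x, ← hg x', hxx]
      · intro i t
        rw [her i t, key N i (g ∘ t)]
        have h3 : e ∘ t = φ N ∘ g ∘ t := by
          funext j
          exact (hg (t j)).symm
        rw [h3]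
    exact h𝒜.2.1 A (K N).1 (K N).2 h2
  · rw [(hγ n).2 i t, key (n + 1) i (γ n ∘ t)]
    rfl

/-- a greedy selection for ternary relations along an ultrafilter -/
theorem exists_seq3 (Q : ℕ → ℕ → ℕ → Prop)
    (h : ∀ᶠ n in (UF : Filter ℕ), ∀ᶠ i in (UF : Filter ℕ), ∀ᶠ j in (UF : Filter ℕ), Q n i j) :
    ∃ f : ℕ → ℕ, StrictMono f ∧ ∀ a b c, a < b → b < c → Q (f a) (f b) (f c) := by
  classical
  let Good : Finset ℕ → Prop := fun s =>
    (∀ n ∈ s, ∀ᶠ i in (UF : Filter ℕ), ∀ᶠ j in (UF : Filter ℕ), Q n i j) ∧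
    (∀ n ∈ s, ∀ i ∈ s, n < i → ∀ᶠ j in (UF : Filter ℕ), Q n i j) ∧
    ∀ n ∈ s, ∀ i ∈ s, ∀ j ∈ s, n < i → i < j → Q n i j
  have hgt : ∀ N : ℕ, ∀ᶠ k in (UF : Filter ℕ), N < k := by
    intro N
    have h1 : ∀ᶠ k in (Filter.cofinite : Filter ℕ), N < k := by
      rw [Nat.cofinite_eq_atTop]
      exact Filter.eventually_gt_atTop N
    exact h1.filter_mono Filter.hyperfilter_le_cofinite
  have step : ∀ s : {s : Finset ℕ // Good s}, ∃ k : ℕ, (∀ n ∈ s.1, n < k) ∧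
      Good (insert k s.1) := by
    rintro ⟨s, h1, h2, h3⟩
    have e1 : ∀ᶠ k in (UF : Filter ℕ), ∀ n ∈ s, n < k := by
      filter_upwards [hgt (s.sup id)] with k hk n hn
      exact (Finset.le_sup (f := id) hn).trans_lt hk
    have e2 : ∀ᶠ k in (UF : Filter ℕ), ∀ n ∈ s, ∀ᶠ j in (UF : Filter ℕ), Q n k j :=
      (Filter.eventually_all_finset s).2 h1
    have e3 : ∀ᶠ k in (UF : Filter ℕ), ∀ n ∈ s, ∀ i ∈ s, n < i → Q n i k := by
      refine (Filter.eventually_all_finset s).2 fun n hn =>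
        (Filter.eventually_all_finset s).2 fun i hi => ?_
      by_cases hni : n < i
      · exact (h2 n hn i hi hni).mono fun j hj _ => hj
      · exact Filter.Eventually.of_forall fun j hj => absurd hj hni
    obtain ⟨k, ⟨⟨hk1, hk2⟩, hk3⟩, hk4⟩ := (((e1.and e2).and e3).and h).exists
    have hcase : ∀ x ∈ insert k s, x = k ∨ x ∈ s := fun x hx => Finset.mem_insert.1 hx
    refine ⟨k, hk1, ?_, ?_, ?_⟩
    · intro n hn
      rcases hcase n hn with h | h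
      · rw [h]; exact hk4
      · exact h1 n h
    · intro n hn i hi hni
      rcases hcase n hn with h | h
      · rcases hcase i hi with h' | h'
        · omega
        · have := hk1 i h'
          omega
      · rcases hcase i hi with h' | h'
        · rw [h']; exact hk2 n h
        · exact h2 n h i h' hni
    · intro n hn i hi j hj hni hij
      rcases hcase j hj with hj' | hj'
      · rcases hcase i hi with hi' | hi'
        · omega
        · rcases hcase n hn with hn' | hn'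
          · have := hk1 i hi'
            omega
          · rw [hj']; exact hk3 n hn' i hi' hni
      · rcases hcase i hi with hi' | hi'
        · have := hk1 j hj'
          omega
        · rcases hcase n hn with hn' | hn'
          · have := hk1 i hi'
            omega
          · exact h3 n hn' i hi' j hj' hni hij
  choose g hg1 hg2 using step
  let S : ℕ → {s : Finset ℕ // Good s} := fun n => Nat.rec
    ⟨∅, by simp [Good]⟩ (fun _ s => ⟨insert (g s) s.1, hg2 s⟩) n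
  have hS : ∀ n, (S (n + 1)).1 = insert (g (S n)) (S n).1 := fun n => rfl
  have hmono : ∀ m n, m ≤ n → (S m).1 ⊆ (S n).1 := by
    intro m n hmn
    induction n, hmn using Nat.le_induction with
    | base => exact subset_rfl
    | succ n _ ih => rw [hS]; exact ih.trans (Finset.subset_insert _ _)
  have hmem : ∀ m n, m < n → g (S m) ∈ (S n).1 := by
    intro m n hmn
    refine hmono (m + 1) n hmn ?_
    rw [hS]
    exact Finset.mem_insert_self _ _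
  have hlt : ∀ m n, m < n → g (S m) < g (S n) := fun m n hmn => hg1 (S n) _ (hmem m n hmn)
  refine ⟨fun n => g (S n), fun m n hmn => hlt m n hmn, fun a b c hab hbc => ?_⟩
  exact (S (c + 1)).2.2.2 _ (hmem a (c + 1) (by omega)) _ (hmem b (c + 1) (by omega)) _
    (hmem c (c + 1) (by omega)) (hlt a b hab) (hlt b c hbc)

theorem ty_of_rel {M : (i : I) → Set (Fin (ar i) → V)} {A : Str ar} {f : Fin A.1 → V}
    (hr : ∀ (i : I) (t : Fin (ar i) → Fin A.1), t ∈ A.2 i ↔ f ∘ t ∈ M i) (x y : Fin A.1) :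
    ty M (f x) (f y) = ty A.2 x y := by
  funext i
  have e1 := hr i (pr2 x y)
  have e2 := hr i (pr2 y x)
  rw [pr2_comp] at e1 e2
  exact Prod.ext (propext e1.symm) (propext e2.symm)

/-- a strictly decreasing sequence of ages from a decreasing sequence of sets -/
theorem not_wf_of_sets {𝒜 : Set (Str ar)} {M : (i : I) → Set (Fin (ar i) → ℕ)} {X : Set ℕ}
    (hX : ageOn M X ⊆ 𝒜) (Y : ℕ → Set ℕ) (hY : ∀ n, Y n ⊆ X) (hdec : ∀ n, Y (n + 1) ⊆ Y n)
    (x y : ℕ → ℕ) (hx : ∀ n, x n ∈ Y n) (hy : ∀ n, y n ∈ Y n)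
    (hne : ∀ n, ∀ p ∈ Y (n + 1), ∀ q ∈ Y (n + 1), (p = q ↔ x n = y n) →
      ty M p q ≠ ty M (x n) (y n)) : ¬ SubagesWF 𝒜 := by
  classical
  intro hwf
  refine hwf ⟨fun n => ageOn M (Y n), fun n => ⟨(ageOn_mono M (hY n)).trans hX,
    ageOn_isAge M _⟩, fun n => ?_⟩
  refine (Set.ssubset_iff_subset_ne).2 ⟨ageOn_mono M (hdec n), fun hEq => ?_⟩
  change ageOn M (Y (n + 1)) = ageOn M (Y n) at hEq
  have hfin : ({x n, y n} : Set ℕ).Finite := by simp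
  obtain ⟨k, e, r, -, he, heY, hr⟩ := exists_enum hfin
  have hmem : indS M e ∈ ageOn M (Y n) := by
    refine ⟨e, he, fun a => ?_, fun _ _ => Iff.rfl⟩
    rcases heY a with h | h
    · rw [h]; exact hx n
    · rw [Set.mem_singleton_iff.1 h]; exact hy n
  rw [← hEq] at hmem
  obtain ⟨g, hg, hgY, hgr⟩ := hmem
  obtain ⟨a, ha, -⟩ := hr (x n) (by simp)
  obtain ⟨b, hb, -⟩ := hr (y n) (by simp)
  refine hne n (g a) (hgY a) (g b) (hgY b) ?_ ?_
  · constructor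
    · intro h
      rw [← ha, ← hb, hg h]
    · intro h
      rw [he (ha.trans (h.trans hb.symm))]
  · rw [ty_of_rel hgr, ty_indS, ha, hb]

theorem opp_opp (θ : I → Prop × Prop) : opp (opp θ) = θ := rfl

theorem finite_diag {𝒜 : Set (Str ar)} (h𝒜 : IsAge 𝒜) (hwf : SubagesWF 𝒜) :
    {θ | ∃ A ∈ 𝒜, ∃ x, θ = ty A.2 x x}.Finite := by
  by_contra hinf
  let e := Set.Infinite.natEmbedding _ hinf
  have h1 : ∀ n, ∃ A ∈ 𝒜, ∃ x, (e n).1 = ty A.2 x x := fun n => (e n).2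
  choose A hA x hx using h1
  obtain ⟨M, X, ψ, hX, hψX, -, hr⟩ := exists_model_seq h𝒜 A hA
  have hty : ∀ n, ty M (ψ n (x n)) (ψ n (x n)) = (e n).1 := fun n => by
    rw [ty_of_rel (hr n), hx]
  refine not_wf_of_sets hX (fun n => {z | ∃ i, n ≤ i ∧ z = ψ i (x i)}) ?_ ?_
    (fun n => ψ n (x n)) (fun n => ψ n (x n)) (fun n => ⟨n, le_rfl, rfl⟩)
    (fun n => ⟨n, le_rfl, rfl⟩) ?_ hwf
  · rintro n z ⟨i, -, rfl⟩
    exact hψX _ _
  · rintro n z ⟨i, hi, rfl⟩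
    exact ⟨i, by omega, rfl⟩
  · rintro n p ⟨i, hi, rfl⟩ q - hpq
    have hq := hpq.2 rfl
    rw [← hq, hty, hty]
    intro h
    have := e.injective (Subtype.ext h)
    omega

theorem finite_off {𝒜 : Set (Str ar)} (h𝒜 : IsAge 𝒜) (hwf : SubagesWF 𝒜) :
    {θ | ∃ A ∈ 𝒜, ∃ x y, x ≠ y ∧ θ = ty A.2 x y}.Finite := by
  classical
  by_contra hinf
  let e := Set.Infinite.natEmbedding _ hinf
  have h1 : ∀ n, ∃ A ∈ 𝒜, ∃ x y, x ≠ y ∧ (e n).1 = ty A.2 x y := fun n => (e n).2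
  choose A hA x y hxy hx using h1
  obtain ⟨M, X, ψ, hX, hψX, hψ, hr⟩ := exists_model_seq h𝒜 A hA
  -- the points
  let P : ℕ → Bool → ℕ := fun n b => if b then ψ n (x n) else ψ n (y n)
  have hPX : ∀ n b, P n b ∈ X := by
    intro n b
    cases b <;> exact hψX _ _
  have hty : ∀ n, ty M (P n true) (P n false) = (e n).1 := fun n => by
    change ty M (ψ n (x n)) (ψ n (y n)) = _
    rw [ty_of_rel (hr n), hx]
  have hty2 : ∀ n, ty M (P n false) (P n true) = opp (e n).1 := fun n => by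
    rw [ty_symm M (P n true), hty]
  have hne : ∀ n, P n true ≠ P n false := fun n h => hxy n (hψ n h)
  -- types are distinct up to reversal
  have hgt : ∀ N : ℕ, ∀ᶠ k in (UF : Filter ℕ), N < k := by
    intro N
    have h1 : ∀ᶠ k in (Filter.cofinite : Filter ℕ), N < k := by
      rw [Nat.cofinite_eq_atTop]
      exact Filter.eventually_gt_atTop N
    exact h1.filter_mono Filter.hyperfilter_le_cofinite
  have hev : ∀ n, ∀ᶠ i in (UF : Filter ℕ), (e i).1 ≠ (e n).1 ∧ opp (e i).1 ≠ (e n).1 := by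
    intro n
    have h2 : ∀ᶠ i in (UF : Filter ℕ), (e i).1 ≠ (e n).1 := by
      filter_upwards [hgt n] with i hi h
      have := e.injective (Subtype.ext h)
      omega
    refine h2.and ?_
    by_cases h3 : ∃ k, opp (e k).1 = (e n).1
    · obtain ⟨k, hk⟩ := h3
      filter_upwards [hgt k] with i hi h
      have h4 : opp (opp (e i).1) = opp (opp (e k).1) := by rw [h, hk]
      rw [opp_opp, opp_opp] at h4
      have := e.injective (Subtype.ext h4)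
      omega
    · exact Filter.Eventually.of_forall fun i hi => h3 ⟨i, hi⟩
  have hcross : ∀ b c : Bool, ∀ᶠ n in (UF : Filter ℕ), ∀ᶠ i in (UF : Filter ℕ),
      ∀ᶠ j in (UF : Filter ℕ), ¬ (ty M (P i b) (P j c) = (e n).1 ∨
        ty M (P i b) (P j c) = opp (e n).1) := by
    intro b c
    by_contra hno
    have h2 : ∀ᶠ n in (UF : Filter ℕ), ∀ᶠ i in (UF : Filter ℕ), ∀ᶠ j in (UF : Filter ℕ),
        (ty M (P i b) (P j c) = (e n).1 ∨ ty M (P i b) (P j c) = opp (e n).1) := by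
      rw [← Ultrafilter.eventually_not] at hno
      refine hno.mono fun n hn => ?_
      rw [← Ultrafilter.eventually_not] at hn
      refine hn.mono fun i hi => ?_
      rw [← Ultrafilter.eventually_not] at hi
      exact hi.mono fun j hj => not_not.1 hj
    obtain ⟨n, hn⟩ := h2.exists
    obtain ⟨n', hn', hn1, hn2⟩ := (h2.and (hev n)).exists
    obtain ⟨i, hi, hi'⟩ := (hn.and hn').exists
    obtain ⟨j, hj, hj'⟩ := (hi.and hi').exists
    rcases hj with hj | hj <;> rcases hj' with hj' | hj'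
    · exact hn1 (hj'.symm.trans hj)
    · exact hn2 (hj'.symm.trans hj)
    · apply hn2
      rw [← hj', hj, opp_opp]
    · apply hn1
      have h4 : opp (opp (e n').1) = opp (opp (e n).1) := by rw [← hj', hj]
      rwa [opp_opp, opp_opp] at h4
  obtain ⟨f, hf, hQ⟩ := exists_seq3 (fun n i j => (∀ b c : Bool,
      ¬ (ty M (P i b) (P j c) = (e n).1 ∨ ty M (P i b) (P j c) = opp (e n).1)) ∧
      ((e i).1 ≠ (e n).1 ∧ opp (e i).1 ≠ (e n).1) ∧
      ((e j).1 ≠ (e n).1 ∧ opp (e j).1 ≠ (e n).1)) (by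
    have h3 : ∀ᶠ n in (UF : Filter ℕ), ∀ᶠ i in (UF : Filter ℕ), ∀ᶠ j in (UF : Filter ℕ),
        ∀ b c : Bool, ¬ (ty M (P i b) (P j c) = (e n).1 ∨ ty M (P i b) (P j c) = opp (e n).1) := by
      have h4 : ∀ᶠ n in (UF : Filter ℕ), ∀ b c : Bool, ∀ᶠ i in (UF : Filter ℕ),
          ∀ᶠ j in (UF : Filter ℕ), ¬ (ty M (P i b) (P j c) = (e n).1 ∨
            ty M (P i b) (P j c) = opp (e n).1) :=
        Filter.eventually_all.2 fun b => Filter.eventually_all.2 fun c => hcross b c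
      refine h4.mono fun n hn => ?_
      have h5 : ∀ᶠ i in (UF : Filter ℕ), ∀ b c : Bool,
          ∀ᶠ j in (UF : Filter ℕ), ¬ (ty M (P i b) (P j c) = (e n).1 ∨
            ty M (P i b) (P j c) = opp (e n).1) :=
        Filter.eventually_all.2 fun b => Filter.eventually_all.2 fun c => hn b c
      refine h5.mono fun i hi => ?_
      exact Filter.eventually_all.2 fun b => Filter.eventually_all.2 fun c => hi b c
    filter_upwards [h3] with n hn
    filter_upwards [hn, hev n] with i hi hi2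
    filter_upwards [hi, hev n] with j hj hj2
    exact ⟨hj, hi2, hj2⟩)
  have hτ : ∀ a b, a < b → (e (f b)).1 ≠ (e (f a)).1 ∧ opp (e (f b)).1 ≠ (e (f a)).1 :=
    fun a b hab => (hQ a b (b + 1) hab (Nat.lt_succ_self b)).2.1
  refine not_wf_of_sets hX (fun n => {z | ∃ i b, n ≤ i ∧ z = P (f i) b}) ?_ ?_
    (fun n => P (f n) true) (fun n => P (f n) false) (fun n => ⟨n, true, le_rfl, rfl⟩)
    (fun n => ⟨n, false, le_rfl, rfl⟩) ?_ hwf
  · rintro n z ⟨i, b, -, rfl⟩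
    exact hPX _ _
  · rintro n z ⟨i, b, hi, rfl⟩
    exact ⟨i, b, by omega, rfl⟩
  · rintro n p ⟨i, b, hi, rfl⟩ q ⟨j, c, hj, rfl⟩ hpq hEq
    rw [hty] at hEq
    rcases lt_trichotomy i j with hij | hij | hij
    · exact (hQ n i j (by omega) hij).1 b c (Or.inl hEq)
    · subst hij
      have hpq' : P (f i) b ≠ P (f i) c := fun h => hne _ (hpq.1 h)
      cases b <;> cases c
      · exact hpq' rfl
      · rw [hty2] at hEq
        exact (hτ n i (by omega)).2 hEq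
      · rw [hty] at hEq
        exact (hτ n i (by omega)).1 hEq
      · exact hpq' rfl
    · refine (hQ n j i (by omega) hij).1 c b (Or.inr ?_)
      rw [ty_symm M (P (f i) b), hEq]

/-- in an age with well-founded set of sub-ages only finitely many 2-types occur -/
theorem finite_types {𝒜 : Set (Str ar)} (h𝒜 : IsAge 𝒜) (hwf : SubagesWF 𝒜) :
    {θ | ∃ A ∈ 𝒜, ∃ x y, θ = ty A.2 x y}.Finite := by
  refine ((finite_diag h𝒜 hwf).union (finite_off h𝒜 hwf)).subset ?_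
  rintro θ ⟨A, hA, x, y, h⟩
  by_cases hxy : x = y
  · subst hxy
    exact Or.inl ⟨A, hA, x, h⟩
  · exact Or.inr ⟨A, hA, x, y, hxy, h⟩

/-! ## Transfer to a finite signature -/

/-- the structure in the signature of the 2-types in `Θ₀` -/
def enc (Θ₀ : Set (I → Prop × Prop)) (A : Str ar) : Str (fun _ : Θ₀ => 2) :=
  ⟨A.1, fun θ => {s | ty A.2 (s 0) (s 1) = θ.1}⟩

theorem enc_isEmb {Θ₀ : Set (I → Prop × Prop)} {A B : Str ar} {f : Fin A.1 → Fin B.1}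
    (hf : IsEmb A B f) : IsEmb (enc Θ₀ A) (enc Θ₀ B) f := by
  refine ⟨hf.1, fun θ s => ?_⟩
  change ty A.2 (s 0) (s 1) = θ.1 ↔ ty B.2 (f (s 0)) (f (s 1)) = θ.1
  rw [ty_of_isEmb hf]

theorem isEmb_of_enc (har : ∀ i, ar i ≤ 2) {𝒜 : Set (Str ar)} (h𝒜 : IsAge 𝒜)
    {Θ₀ : Set (I → Prop × Prop)} (hΘ : ∀ A ∈ 𝒜, ∀ x y, ty A.2 x y ∈ Θ₀) {A B : Str ar}
    (hA : A ∈ 𝒜) (hB : B ∈ 𝒜) {f : Fin A.1 → Fin B.1}
    (hf : IsEmb (enc Θ₀ A) (enc Θ₀ B) f) : IsEmb A B f := by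
  refine isEmb_of_ty har h𝒜 hA hB hf.1 fun x y => ?_
  exact (hf.2 ⟨ty A.2 x y, hΘ A hA x y⟩ ![x, y]).1 rfl

theorem noAntichain_of_finite_case
    (H : ∀ (J : Type) [Finite J] (ℬ : Set (Str (fun _ : J => 2))), IsAge ℬ → SubagesWF ℬ →
      NoAntichain ℬ)
    (har : ∀ i, ar i ≤ 2) {𝒜 : Set (Str ar)} (h𝒜 : IsAge 𝒜) (hwf : SubagesWF 𝒜) :
    NoAntichain 𝒜 := by
  classical
  let Θ₀ : Set (I → Prop × Prop) := {θ | ∃ A ∈ 𝒜, ∃ x y, θ = ty A.2 x y}
  have hΘfin : Θ₀.Finite := finite_types h𝒜 hwf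
  have hΘ : ∀ A ∈ 𝒜, ∀ x y, ty A.2 x y ∈ Θ₀ := fun A hA x y => ⟨A, hA, x, y, rfl⟩
  have : Finite Θ₀ := hΘfin.to_subtype
  let ℬ : Set (Str (fun _ : Θ₀ => 2)) := {B | ∃ A ∈ 𝒜, B = enc Θ₀ A}
  -- structures below an encoded one are encoded
  have hdown : ∀ (B : Str (fun _ : Θ₀ => 2)) (A : Str ar), A ∈ 𝒜 → Emb B (enc Θ₀ A) →
      ∃ A' ∈ 𝒜, B = enc Θ₀ A' := by
    rintro ⟨n, r⟩ A hA ⟨f, hf⟩
    refine ⟨indS A.2 f, h𝒜.2.1 _ A hA ⟨f, hf.1, fun _ _ => Iff.rfl⟩, ?_⟩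
    have hr : r = (enc Θ₀ (indS A.2 f)).2 := by
      funext θ
      ext s
      have h1 := hf.2 θ s
      change s ∈ r θ ↔ ty (indS A.2 f).2 (s 0) (s 1) = θ.1
      rw [ty_indS]
      exact h1
    rw [hr]
    rfl
  have hℬ : IsAge ℬ := by
    refine ⟨?_, ?_, ?_⟩
    · obtain ⟨A, hA⟩ := h𝒜.1
      exact ⟨enc Θ₀ A, A, hA, rfl⟩
    · rintro B' B ⟨A, hA, rfl⟩ hBB
      exact hdown B' A hA hBB
    · rintro _ ⟨A, hA, rfl⟩ _ ⟨B, hB, rfl⟩
      obtain ⟨C, hC, ⟨f, hf⟩, ⟨g, hg⟩⟩ := h𝒜.2.2 A hA B hB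
      exact ⟨enc Θ₀ C, ⟨C, hC, rfl⟩, ⟨f, enc_isEmb hf⟩, ⟨g, enc_isEmb hg⟩⟩
  have hℬwf : SubagesWF ℬ := by
    rintro ⟨D, hD, hD2⟩
    refine hwf ⟨fun k => {A | A ∈ 𝒜 ∧ enc Θ₀ A ∈ D k}, fun k => ⟨fun A hA => hA.1, ?_, ?_, ?_⟩,
      fun k => ?_⟩
    · obtain ⟨B, hB⟩ := (hD k).2.1
      obtain ⟨A, hA, rfl⟩ := (hD k).1 hB
      exact ⟨A, hA, hB⟩
    · rintro A B ⟨hB, hBD⟩ ⟨f, hf⟩
      exact ⟨h𝒜.2.1 A B hB ⟨f, hf⟩, (hD k).2.2.1 _ _ hBD ⟨f, enc_isEmb hf⟩⟩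
    · rintro A ⟨hA, hAD⟩ B ⟨hB, hBD⟩
      obtain ⟨C', hC', ⟨f, hf⟩, ⟨g, hg⟩⟩ := (hD k).2.2.2 _ hAD _ hBD
      obtain ⟨C, hC, rfl⟩ := (hD k).1 hC'
      exact ⟨C, ⟨hC, hC'⟩, ⟨f, isEmb_of_enc har h𝒜 hΘ hA hC hf⟩,
        ⟨g, isEmb_of_enc har h𝒜 hΘ hB hC hg⟩⟩
    · obtain ⟨h1, h2⟩ := Set.ssubset_iff_exists.1 (hD2 k)
      obtain ⟨B, hB, hBn⟩ := h2
      obtain ⟨A, hA, rfl⟩ := (hD k).1 hB
      refine Set.ssubset_iff_exists.2 ⟨fun A hA => ⟨hA.1, h1 hA.2⟩, A, ⟨hA, hB⟩,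
        fun h => hBn h.2⟩
  have hfin := H Θ₀ ℬ hℬ hℬwf
  rintro ⟨s, hs, hanti⟩
  refine hfin ⟨fun k => enc Θ₀ (s k), fun k => ⟨s k, hs k, rfl⟩, fun m k hmk => ?_⟩
  rintro ⟨f, hf⟩
  exact hanti m k hmk ⟨f, isEmb_of_enc har h𝒜 hΘ (hs m) (hs k) hf⟩

/-- the binary case for all signatures, from the two main statements -/
theorem noAntichain_of_binary (h1 : BinaryFalse) (h2 : NipOfWf)
    (har : ∀ i, ar i ≤ 2) {𝒜 : Set (Str ar)} (h𝒜 : IsAge 𝒜) (hwf : SubagesWF 𝒜) :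
    NoAntichain 𝒜 :=
  noAntichain_of_finite_case (fun _ _ _ hℬ hℬwf =>
    noAntichain_of_binary' h1 h2 (fun _ => le_rfl) hℬ hℬwf) har h𝒜 hwf

end Pool.Agent.Lib.MP_4fb322_lc_h91b
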