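import Mathlib
import Pool.Agent.Lib.MP_4fb322_lc_h91b.Red3

set_option autoImplicit false

/-!
# From decreasing families of sets to the failure of well-foundedness
-/

namespace Pool.Agent.Lib.MP_4fb322_lc_h91b

open Set Filter
open Pool.Agent.Lib.MP_4fb322_lc_h7 (PE Full Mini Shat UF)

/-- the statement on the independence property, in terms of decreasing families of sets -/
def IPChain : Prop :=
  ∀ (Θ V : Type) [Finite Θ] [Nonempty Θ] (op : Θ → Θ) (T : V → V → Θ),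
    (∀ x y, T y x = op (T x y)) → ∀ θ, (∀ n, Shat T θ n) →
    ∃ (S : ℕ ⊕ ℕ → ℕ ⊕ ℕ → Θ) (N : ℕ → Set (ℕ ⊕ ℕ)), (∀ x y, S y x = op (S x y)) ∧
      (∀ Y : Set (ℕ ⊕ ℕ), Y.Finite → ∃ f : ℕ ⊕ ℕ → V, PE S T Y f) ∧
      (∀ g, N (g + 1) ⊆ N g) ∧
      ∀ g, ∃ g' > g, ∃ Y ⊆ N g, Y.Finite ∧ ¬ ∃ f : ℕ ⊕ ℕ → ℕ ⊕ ℕ, PE S S Y f ∧
        ∀ y ∈ Y, f y ∈ N g'

theorem nipOfWf_of_chain (h : IPChain) : NipOfWf := by
  classical
  intro Θ V _ op T hop hwf θ
  by_contra hno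
  have hsh : ∀ n, Shat T θ n := by
    intro n
    by_contra hn
    exact hno ⟨n, hn⟩
  haveI : Nonempty Θ := ⟨θ⟩
  obtain ⟨S, N, -, hS, hN, hstep⟩ := h Θ V op T hop θ hsh
  choose g hg using hstep
  let G : ℕ → ℕ := fun n => Nat.rec 0 (fun _ k => g k) n
  have hG : ∀ n, G (n + 1) = g (G n) := fun n => rfl
  have hmono : ∀ m n, m ≤ n → N n ⊆ N m := by
    intro m n hmn
    induction n, hmn using Nat.le_induction with
    | base => exact subset_rfl
    | succ n _ ih => exact (hN n).trans ih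
  refine hwf ⟨fun k => {x // x ∈ N (G k)}, fun k x y => S x.1 y.1, fun k => ?_,
    fun k => ⟨?_, ?_⟩⟩
  · intro Y hY
    obtain ⟨f, hf⟩ := hS (Subtype.val '' Y) (hY.image _)
    refine ⟨fun x => f x.1, ?_, ?_⟩
    · intro x hx y hy hxy
      exact Subtype.ext (hf.1 (Set.mem_image_of_mem _ hx) (Set.mem_image_of_mem _ hy) hxy)
    · intro x hx y hy
      exact hf.2 _ (Set.mem_image_of_mem _ hx) _ (Set.mem_image_of_mem _ hy)
  · intro Y _
    have hsub : N (G (k + 1)) ⊆ N (G k) := by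
      rw [hG]
      exact hmono _ _ (le_of_lt (hg (G k)).1)
    exact ⟨fun x => ⟨x.1, hsub x.2⟩, fun x _ y _ hxy => Subtype.ext (congrArg
      (fun z : {x // x ∈ N (G k)} => z.1) hxy), fun x _ y _ => rfl⟩
  · intro hloc
    obtain ⟨-, Y, hY, hYfin, hno2⟩ := hg (G k)
    obtain ⟨f, hf⟩ := hloc (Subtype.val ⁻¹' Y) (hYfin.preimage Subtype.val_injective.injOn)
    apply hno2
    refine ⟨fun y => if hy : y ∈ N (G k) then (f ⟨y, hy⟩).1 else y, ⟨?_, ?_⟩, ?_⟩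
    · intro x hx y hy hxy
      simp only [dif_pos (hY hx), dif_pos (hY hy)] at hxy
      have := hf.1 (show (⟨x, hY hx⟩ : {x // x ∈ N (G k)}) ∈ _ from hx)
        (show (⟨y, hY hy⟩ : {x // x ∈ N (G k)}) ∈ _ from hy) (Subtype.ext hxy)
      exact congrArg Subtype.val this
    · intro x hx y hy
      simp only [dif_pos (hY hx), dif_pos (hY hy)]
      exact hf.2 (⟨x, hY hx⟩ : {x // x ∈ N (G k)}) hx ⟨y, hY hy⟩ hy
    · intro y hy
      simp only [dif_pos (hY hy)]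
      exact (f ⟨y, hY hy⟩).2

end Pool.Agent.Lib.MP_4fb322_lc_h91b
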