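import Mathlib
import Pool.Agent.Lib.MP_4fb322_lc_h91b.Red4
import Pool.Agent.Lib.MP_4fb322_lc_h7.R21
import Pool.Agent.Lib.MP_4fb322_lc_h96.Half
import Pool.Agent.Lib.MP_4fb322_lc_h33.IPFinal

set_option autoImplicit false

/-!
# The binary case: assembly
-/

namespace Pool.Agent.Lib.MP_4fb322_lc_h91b

open Pool.Agent.Lib.MP_4fb322_lc_h70 (Str IsAge NoAntichain SubagesWF)

theorem binaryFalse : BinaryFalse := by
  intro Θ V _ _ _ op T a opT anti mini nip
  obtain ⟨u, pt, π, C, ρ, D⟩ :=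
    Pool.Agent.Lib.MP_4fb322_lc_h7.exists_dat opT nip mini anti
  exact Pool.Agent.Lib.MP_4fb322_lc_h96.second D

theorem ipChain : IPChain := by
  intro Θ V _ _ op T hop θ h
  exact Pool.Agent.Lib.MP_4fb322_lc_h33.ip_chain op T hop θ h

/-- Every age of finite structures with relations of arity at most two whose set of sub-ages
is well-founded has no infinite antichain. -/
theorem noAntichain_of_arity_two {I : Type} {ar : I → ℕ} (har : ∀ i, ar i ≤ 2)
    {𝒜 : Set (Str ar)} (h𝒜 : IsAge 𝒜) (hwf : SubagesWF 𝒜) : NoAntichain 𝒜 :=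
  noAntichain_of_binary binaryFalse (nipOfWf_of_chain ipChain) har h𝒜 hwf

end Pool.Agent.Lib.MP_4fb322_lc_h91b
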